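import Pool.Agent.Run7.h450.CS.Iface

/-!
# Project CL, LIM: continuity of the flux at `s = 0`

Replace `s` by `max s 0`: then `(max s 0) • D0 - sl γ (insertNth (±1) y)` is invertible for all `s` and
`y`, so the integrands are continuous everywhere.
-/

set_option autoImplicit false
open Filter Topology Matrix MeasureTheory

namespace Run7.h312.CL
open Run7.h450.CL

variable {K : Type} [Fintype K] [DecidableEq K]

theorem sl_sq {m : ℕ} (γ : Fin m → Matrix K K ℂ) (h : Cl γ) (x : Fin m → ℝ) :
    sl γ x * sl γ x = ((∑ j, x j ^ 2 : ℝ) : ℂ) • (1 : Matrix K K ℂ) := by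
  have h1 : sl γ x * sl γ x = ∑ j, ∑ k, (((x j : ℝ) : ℂ) * ((x k : ℝ) : ℂ)) • (γ j * γ k) := by
    unfold sl
    rw [Finset.sum_mul_sum]
    refine Finset.sum_congr rfl fun j _ => Finset.sum_congr rfl fun k _ => ?_
    rw [smul_mul_smul_comm]
  have h2 : sl γ x * sl γ x = ∑ j, ∑ k, (((x j : ℝ) : ℂ) * ((x k : ℝ) : ℂ)) • (γ k * γ j) := by
    rw [h1, Finset.sum_comm]
    refine Finset.sum_congr rfl fun j _ => Finset.sum_congr rfl fun k _ => ?_
    rw [mul_comm ((x k : ℝ) : ℂ)]
  have h3 : sl γ x * sl γ x + sl γ x * sl γ x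
      = ∑ j, ∑ k, (((x j : ℝ) : ℂ) * ((x k : ℝ) : ℂ)) • (γ j * γ k + γ k * γ j) := by
    nth_rewrite 1 [h1]
    rw [h2, ← Finset.sum_add_distrib]
    refine Finset.sum_congr rfl fun j _ => ?_
    rw [← Finset.sum_add_distrib]
    refine Finset.sum_congr rfl fun k _ => ?_
    rw [smul_add]
  have h4 : ∀ j k, γ j * γ k + γ k * γ j = if k = j then (2 : ℂ) • (1 : Matrix K K ℂ) else 0 := by
    intro j k
    split_ifs with hjk
    · subst hjk
      rw [h.sq, two_smul]
    · rw [h.anti j k (fun h => hjk h.symm), neg_add_cancel]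
  have h5 : sl γ x * sl γ x + sl γ x * sl γ x
      = ((∑ j, x j ^ 2 : ℝ) : ℂ) • (1 : Matrix K K ℂ) + ((∑ j, x j ^ 2 : ℝ) : ℂ) • 1 := by
    rw [h3]
    simp only [h4, smul_ite, smul_zero, Finset.sum_ite_eq', Finset.mem_univ, if_true]
    rw [← add_smul, Complex.ofReal_sum, ← Finset.sum_add_distrib, Finset.sum_smul]
    refine Finset.sum_congr rfl fun j _ => ?_
    rw [smul_smul]
    congr 1
    push_cast
    ring
  have h6 : (2 : ℂ) • (sl γ x * sl γ x) = (2 : ℂ) • (((∑ j, x j ^ 2 : ℝ) : ℂ) • (1 : Matrix K K ℂ)) := by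
    rw [two_smul, two_smul, h5]
  exact smul_right_injective _ (two_ne_zero) h6

theorem det_ne {m : ℕ} (γ : Fin m → Matrix K K ℂ) (h : Cl γ) (x : Fin m → ℝ) (hx : x ≠ 0) :
    (0 - sl γ x).det ≠ 0 := by
  intro h0
  have h1 : ((0 - sl γ x) * (0 - sl γ x)).det = 0 := by
    rw [Matrix.det_mul, h0, zero_mul]
  have h2 : (0 - sl γ x) * (0 - sl γ x) = ((∑ j, x j ^ 2 : ℝ) : ℂ) • (1 : Matrix K K ℂ) := by
    rw [zero_sub, neg_mul_neg, sl_sq γ h]
  rw [h2, Matrix.det_smul, Matrix.det_one, mul_one] at h1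
  have h3 := eq_zero_of_pow_eq_zero h1
  have h4 : ∑ j, x j ^ 2 = 0 := by exact_mod_cast h3
  apply hx
  funext j
  have := (Finset.sum_eq_zero_iff_of_nonneg (fun j _ => sq_nonneg (x j))).1 h4 j (Finset.mem_univ j)
  simpa using this

theorem cont_inv {X : Type} [TopologicalSpace X] (M : X → Matrix K K ℂ) (hM : Continuous M)
    (h0 : ∀ z, (M z).det ≠ 0) : Continuous fun z => (M z)⁻¹ := by
  have h1 : (fun z => (M z)⁻¹) = fun z => ((M z).det)⁻¹ • (M z).adjugate := by
    funext z
    rw [Matrix.inv_def, Ring.inverse_eq_inv']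
  rw [h1]
  exact (hM.matrix_det.inv₀ h0).smul hM.matrix_adjugate

theorem cont_VF {X : Type} [TopologicalSpace X] {p : ℕ} (γ : Fin (p + 1) → Matrix K K ℂ)
    (D : X → Matrix K K ℂ) (hD : Continuous D) (x : X → Fin (p + 1) → ℝ) (hx : Continuous x)
    (h0 : ∀ z, (D z - sl γ (x z)).det ≠ 0) (i : Fin (p + 1)) :
    Continuous fun z => VF (D z) γ (x z) i := by
  have hs : Continuous fun z => sl γ (x z) := by
    unfold sl
    refine continuous_finsetSum _ fun j _ => ?_
    exact (Complex.continuous_ofReal.comp ((continuous_apply j).comp hx)).smul continuous_const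
  have hi := cont_inv (fun z => D z - sl γ (x z)) (hD.sub hs) h0
  unfold VF
  refine continuous_finsetSum _ fun τ _ => ?_
  split_ifs
  · refine continuous_const.mul (Continuous.matrix_trace (continuous_const.mul ?_))
    unfold wd
    simp only [List.ofFn_eq_map]
    exact continuous_list_prod _ fun k _ => hi.mul continuous_const
  · exact continuous_const

theorem t_LIM : S_LIM := by
  intro K _ _ p γ D0 _ hγ hdet
  have key : ∀ (c : ℝ), c ≠ 0 → ∀ i : Fin (p + 1), Continuous fun s : ℝ =>
      ∫ y in Set.Icc (fun _ => -1 : Fin p → ℝ) (fun _ => 1),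
        VF (((max s 0 : ℝ) : ℂ) • D0) γ (i.insertNth c y) i := by
    intro c hc i
    have hcont : Continuous (Function.uncurry fun (s : ℝ) (y : Fin p → ℝ) =>
        VF (((max s 0 : ℝ) : ℂ) • D0) γ (i.insertNth c y) i) := by
      refine cont_VF γ (fun z : ℝ × (Fin p → ℝ) => ((max z.1 0 : ℝ) : ℂ) • D0) ?_
        (fun z : ℝ × (Fin p → ℝ) => (i.insertNth c z.2 : Fin (p + 1) → ℝ)) ?_ ?_ i
      · exact (Complex.continuous_ofReal.comp (continuous_fst.max continuous_const)).smul
          continuous_const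
      · exact Continuous.finInsertNth i continuous_const continuous_snd
      · intro z
        rcases le_or_gt z.1 0 with h | h
        · rw [max_eq_right h, Complex.ofReal_zero, zero_smul]
          apply det_ne γ hγ
          intro h0
          apply hc
          have := congrFun h0 i
          simpa using this
        · rw [max_eq_left h.le]
          exact hdet z.1 h _
    exact continuous_parametric_integral_of_continuous hcont isCompact_Icc
  have hfl : Continuous fun s : ℝ => flux (((max s 0 : ℝ) : ℂ) • D0) γ := by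
    unfold flux
    refine continuous_finsetSum _ fun i _ => ?_
    exact (key 1 one_ne_zero i).sub (key (-1) (neg_ne_zero.2 one_ne_zero) i)
  have h1 := hfl.tendsto 0
  have h2 : flux (((max (0 : ℝ) 0 : ℝ) : ℂ) • D0) γ = flux (0 : Matrix K K ℂ) γ := by
    rw [max_self, Complex.ofReal_zero, zero_smul]
  rw [h2] at h1
  refine (h1.mono_left nhdsWithin_le_nhds).congr' ?_
  filter_upwards [self_mem_nhdsWithin] with s hs
  rw [max_eq_left (le_of_lt hs)]

end Run7.h312.CL
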